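import Pool.Agent.X125.BM.Dim

/-! Minkowski dimension of the carpet and identification of the attractor. -/

set_option autoImplicit false
open MeasureTheory Filter Topology Set Metric
open scoped ENNReal

namespace Pool.Agent.X125.BM

section
variable {m n : ℕ} (D : Finset (Fin m × Fin n))

theorem cover_upper (hm : 2 ≤ m) (hmn : m < n) (hD : D.Nonempty) (k : ℕ) (r : ℝ)
    (hr : 2 * (1 / (n : ℝ) ^ k) ≤ r) : coverNum (range (code D)) r ≤ Fintype.card (QQ D k) := by
  classical
  obtain ⟨p, hp⟩ := hD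
  set a0 : Alph D := ⟨p, hp⟩
  have h1 : coverNum (range (code D)) r ≤
      ((Finset.univ : Finset (QQ D k)).image fun Q => code D (rep D a0 k Q)).card := by
    apply Nat.sInf_le
    refine ⟨_, rfl, ?_⟩
    rintro _ ⟨ω, rfl⟩
    obtain ⟨Q, hQ⟩ := rep_cover D hm hmn a0 k ω
    simp only [mem_iUnion]
    exact ⟨_, Finset.mem_image_of_mem _ (Finset.mem_univ Q), mem_closedBall.mpr (hQ.trans hr)⟩
  refine h1.trans (Finset.card_image_le.trans ?_)
  rw [Finset.card_univ]

theorem cover_lower (hm : 2 ≤ m) (hmn : m < n) (hD : D.Nonempty) (k : ℕ) (r : ℝ) (hr0 : 0 < r)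
    (hr : r ≤ 1 / (n : ℝ) ^ k) :
    (Fintype.card (QQ D k) : ℝ) ≤ (coverNum (range (code D)) r : ℝ) * ((2 * m + 2) * 4) := by
  classical
  have hn0 : (0 : ℝ) < n := by exact_mod_cast (by omega : 0 < n)
  have hn1 : (1 : ℝ) < n := by exact_mod_cast (by omega : 1 < n)
  have hne : {c : ℕ | ∃ F : Finset E2, F.card = c ∧ range (code D) ⊆ ⋃ z ∈ F, closedBall z r}.Nonempty := by
    obtain ⟨p, hp⟩ := hD
    set a0 : Alph D := ⟨p, hp⟩
    have h1 : Tendsto (fun k : ℕ => 2 * (1 / (n : ℝ)) ^ k) atTop (𝓝 (2 * 0)) :=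
      (tendsto_pow_atTop_nhds_zero_of_lt_one (by positivity)
        (by rw [div_lt_one hn0]; exact hn1)).const_mul _
    rw [mul_zero] at h1
    obtain ⟨j, hj⟩ := (h1.eventually_lt_const hr0).exists
    rw [div_pow, one_pow] at hj
    refine ⟨_, ((Finset.univ : Finset (QQ D j)).image fun Q => code D (rep D a0 j Q)), rfl, ?_⟩
    rintro _ ⟨ω, rfl⟩
    obtain ⟨Q, hQ⟩ := rep_cover D hm hmn a0 j ω
    simp only [mem_iUnion]
    exact ⟨_, Finset.mem_image_of_mem _ (Finset.mem_univ Q), mem_closedBall.mpr (hQ.trans hj.le)⟩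
  obtain ⟨F, hF1, hF2⟩ := Nat.sInf_mem hne
  have hF1' : F.card = coverNum (range (code D)) r := hF1
  rw [← hF1']
  obtain ⟨p, hp⟩ := hD
  set a0 : Alph D := ⟨p, hp⟩
  have h1 : (Finset.univ : Finset (QQ D k)) ⊆ F.biUnion fun z =>
      Finset.univ.filter fun Q : QQ D k => dist (code D (rep D a0 k Q)) z ≤ r := by
    intro Q _
    have := hF2 (mem_range_self (rep D a0 k Q))
    simp only [mem_iUnion] at this
    obtain ⟨z, hz, hz2⟩ := this
    exact Finset.mem_biUnion.mpr ⟨z, hz, Finset.mem_filter.mpr ⟨Finset.mem_univ _, hz2⟩⟩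
  have h2 := (Finset.card_le_card h1).trans Finset.card_biUnion_le
  rw [Finset.card_univ] at h2
  have h3 : (Fintype.card (QQ D k) : ℝ) ≤ ∑ z ∈ F,
      ((Finset.univ.filter fun Q : QQ D k => dist (code D (rep D a0 k Q)) z ≤ r).card : ℝ) := by
    exact_mod_cast h2
  refine h3.trans ((Finset.sum_le_sum fun z _ => overlap D hm hmn a0 k z r hr _
    (fun Q hQ => (Finset.mem_filter.mp hQ).2)).trans ?_)
  rw [Finset.sum_const, nsmul_eq_mul]

theorem box_dim (hm : 2 ≤ m) (hmn : m < n) (hD : D.Nonempty) :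
    HasMinkowskiDim (range (code D)) (dd D) := by
  have hm0 : (0 : ℝ) < m := by exact_mod_cast (by omega : 0 < m)
  have hn0 : (0 : ℝ) < n := by exact_mod_cast (by omega : 0 < n)
  have hn1 : (1 : ℝ) < n := by exact_mod_cast (by omega : 1 < n)
  have hln : 0 < Real.log n := Real.log_pos hn1
  have hlm : 0 < Real.log m := Real.log_pos (by exact_mod_cast (by omega : 1 < m))
  have hMn : 0 < (D.image Prod.fst).card := Finset.card_pos.mpr (hD.image _)
  have hNn : 0 < D.card := Finset.card_pos.mpr hD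
  have hM1 : 0 ≤ Real.log (D.image Prod.fst).card := Real.log_nonneg (by exact_mod_cast hMn)
  have hdd : 0 ≤ dd D := by
    unfold dd
    have h2 : (1 : ℝ) ≤ (D.card : ℝ) / (D.image Prod.fst).card := by
      rw [le_div_iff₀ (by exact_mod_cast hMn), one_mul]
      exact_mod_cast Finset.card_image_le
    have h4 := Real.log_nonneg h2
    positivity
  set K1 : ℝ := (2 * m + 2) * 4 with hK1
  have hK1' : 1 ≤ K1 := by rw [hK1]; nlinarith
  have hK10 : 0 < K1 := by linarith
  have hlK : 0 ≤ Real.log K1 := Real.log_nonneg hK1'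
  have hQ0 : ∀ k, (0 : ℝ) < (Fintype.card (QQ D k) : ℝ) := by
    intro k
    rw [card_QQ]
    exact_mod_cast Nat.mul_pos (Nat.pow_pos hNn) (Nat.pow_pos hMn)
  set Cst := dd D * (Real.log 2 + Real.log n) + Real.log (D.image Prod.fst).card + Real.log K1 with hCst
  have hl2 : 0 < Real.log 2 := Real.log_pos (by norm_num)
  have main : ∀ r : ℝ, 0 < r → r < 1 →
      |Real.log (coverNum (range (code D)) r) - dd D * (-Real.log r)| ≤ Cst := by
    intro r hr0 hr1
    have hT : 0 < -Real.log r := by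
      have := Real.log_neg hr0 hr1
      linarith
    -- lower
    set k' := ⌊(-Real.log r) / Real.log n⌋₊ with hk'
    have hk1 : (k' : ℝ) * Real.log n ≤ -Real.log r := by
      have := Nat.floor_le (div_nonneg hT.le hln.le)
      rwa [← hk', le_div_iff₀ hln] at this
    have hk2 : -Real.log r < (k' + 1) * Real.log n := by
      have := Nat.lt_floor_add_one ((-Real.log r) / Real.log n)
      rwa [← hk', div_lt_iff₀ hln] at this
    have hrk : r ≤ 1 / (n : ℝ) ^ k' := by
      rw [← Real.log_le_log_iff hr0 (by positivity), one_div, Real.log_inv, Real.log_pow]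
      linarith
    have hlow := cover_lower D hm hmn hD k' r hr0 hrk
    rw [← hK1] at hlow
    have hN0 : (0 : ℝ) < (coverNum (range (code D)) r : ℝ) := by
      rcases Nat.eq_zero_or_pos (coverNum (range (code D)) r) with h | h
      · rw [h] at hlow
        have := hQ0 k'
        rw [Nat.cast_zero, zero_mul] at hlow
        linarith
      · exact_mod_cast h
    have hloglow : Real.log (Fintype.card (QQ D k')) ≤
        Real.log (coverNum (range (code D)) r) + Real.log K1 := by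
      rw [← Real.log_mul hN0.ne' hK10.ne']
      exact Real.log_le_log (hQ0 k') hlow
    have h1 := (log_card D hm hmn hD k').1
    have h2 : dd D * (-Real.log r) ≤ k' * dd D * Real.log n + dd D * Real.log n := by
      have := mul_le_mul_of_nonneg_left hk2.le hdd
      linarith
    -- upper
    have hex : ∃ k : ℕ, 2 * (1 / (n : ℝ) ^ k) ≤ r := by
      have h1 : Tendsto (fun k : ℕ => 2 * (1 / (n : ℝ)) ^ k) atTop (𝓝 (2 * 0)) :=
        (tendsto_pow_atTop_nhds_zero_of_lt_one (by positivity)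
          (by rw [div_lt_one hn0]; exact hn1)).const_mul _
      rw [mul_zero] at h1
      obtain ⟨k, hk⟩ := (h1.eventually_lt_const hr0).exists
      refine ⟨k, ?_⟩
      rw [div_pow, one_pow] at hk
      exact hk.le
    classical
    set k1 := Nat.find hex with hk1
    have hk1s : 2 * (1 / (n : ℝ) ^ k1) ≤ r := Nat.find_spec hex
    have hk1pos : k1 ≠ 0 := by
      intro h
      rw [h] at hk1s
      norm_num at hk1s
      linarith
    obtain ⟨k, hk⟩ := Nat.exists_eq_succ_of_ne_zero hk1pos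
    have hkm : r < 2 * (1 / (n : ℝ) ^ k) := by
      by_contra hcon
      push Not at hcon
      have := Nat.find_min' hex hcon
      omega
    rw [hk, Nat.succ_eq_add_one] at hk1s
    have hup := cover_upper D hm hmn hD (k + 1) r hk1s
    have hlogup : Real.log (coverNum (range (code D)) r) ≤
        Real.log (Fintype.card (QQ D (k + 1))) :=
      Real.log_le_log hN0 (by exact_mod_cast hup)
    have h3 := (log_card D hm hmn hD (k + 1)).2
    have h4 : k * Real.log n ≤ Real.log 2 + (-Real.log r) := by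
      have := Real.log_le_log hr0 hkm.le
      rw [Real.log_mul (by norm_num) (by positivity), one_div, Real.log_inv, Real.log_pow] at this
      linarith
    have h5 : ((k + 1 : ℕ) : ℝ) * dd D * Real.log n ≤
        dd D * (Real.log 2 + (-Real.log r)) + dd D * Real.log n := by
      have := mul_le_mul_of_nonneg_left h4 hdd
      push_cast
      linarith
    have h6 : 0 ≤ dd D * Real.log 2 := by positivity
    have h7 : 0 ≤ dd D * Real.log n := by positivity
    rw [abs_le, hCst, mul_add]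
    constructor
    · linarith
    · linarith
  -- conclusion
  unfold HasMinkowskiDim
  have hT : Tendsto (fun r : ℝ => -Real.log r) (𝓝[>] 0) atTop :=
    tendsto_neg_atBot_atTop.comp Real.tendsto_log_nhdsGT_zero
  have h0 : Tendsto (fun r : ℝ => Cst / (-Real.log r)) (𝓝[>] 0) (𝓝 0) :=
    hT.const_div_atTop Cst
  rw [tendsto_iff_norm_sub_tendsto_zero]
  refine squeeze_zero' (Filter.Eventually.of_forall fun r => norm_nonneg _) ?_ h0
  filter_upwards [Ioo_mem_nhdsGT (zero_lt_one' ℝ)] with r hr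
  have hT : 0 < -Real.log r := by
    have := Real.log_neg hr.1 hr.2
    linarith
  have e : Real.log (coverNum (range (code D)) r) / (-Real.log r) - dd D =
      (Real.log (coverNum (range (code D)) r) - dd D * (-Real.log r)) / (-Real.log r) := by
    rw [sub_div, mul_div_assoc, div_self hT.ne', mul_one]
  rw [e, Real.norm_eq_abs, abs_div, abs_of_pos hT]
  gcongr
  exact main r hr.1 hr.2

/-! ### The attractor -/

/-- The maps `f_{ij}(x, y) = ((x+i)/m, (y+j)/n)`. -/
noncomputable def fmap (m n : ℕ) (p : Fin m × Fin n) (x : E2) : E2 :=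
  !₂[(x 0 + (p.1.val : ℝ)) / m, (x 1 + (p.2.val : ℝ)) / n]

theorem fmap_dist (hm : 2 ≤ m) (hmn : m < n) (p : Fin m × Fin n) (x y : E2) :
    dist (fmap m n p x) (fmap m n p y) ≤ 1 / m * dist x y := by
  have hm0 : (0 : ℝ) < m := by exact_mod_cast (by omega : 0 < m)
  have hn0 : (0 : ℝ) < n := by exact_mod_cast (by omega : 0 < n)
  have hmn' : (m : ℝ) ≤ n := by exact_mod_cast hmn.le
  rw [EuclideanSpace.dist_eq, EuclideanSpace.dist_eq, Fin.sum_univ_two, Fin.sum_univ_two,
    Real.dist_eq, Real.dist_eq, Real.dist_eq, Real.dist_eq, sq_abs, sq_abs, sq_abs, sq_abs,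
    Real.sqrt_le_left (by positivity)]
  rw [mul_pow, Real.sq_sqrt (by positivity)]
  have e0 : (fmap m n p x) 0 - (fmap m n p y) 0 = 1 / m * (x 0 - y 0) := by
    simp only [fmap]
    simp
    ring
  have e1 : (fmap m n p x) 1 - (fmap m n p y) 1 = 1 / n * (x 1 - y 1) := by
    simp only [fmap]
    simp
    ring
  rw [e0, e1]
  have h1 : (1 / (n : ℝ)) ^ 2 ≤ (1 / (m : ℝ)) ^ 2 := by gcongr
  have h2 : (1 / (n : ℝ) * (x 1 - y 1)) ^ 2 ≤ (1 / (m : ℝ)) ^ 2 * (x 1 - y 1) ^ 2 := by
    rw [mul_pow]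
    gcongr
  have h3 : (1 / (m : ℝ) * (x 0 - y 0)) ^ 2 = (1 / (m : ℝ)) ^ 2 * (x 0 - y 0) ^ 2 := by
    rw [mul_pow]
  rw [h3]
  linarith

theorem code_rec (hm : 2 ≤ m) (hmn : m < n) (ω : ℕ → Alph D) :
    code D ω = fmap m n (ω 0).1 (code D (shift ω)) := by
  have hm0 : (0 : ℝ) < m := by exact_mod_cast (by omega : 0 < m)
  have hn0 : (0 : ℝ) < n := by exact_mod_cast (by omega : 0 < n)
  have key : ∀ (b : ℕ) (hb : (0 : ℝ) < b) (x : ℕ → Fin b),
      Real.ofDigits x = (Real.ofDigits (fun t => x (t + 1)) + ((x 0).val : ℝ)) / b := by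
    intro b hb x
    have := ofDigits_num x 1
    rw [pow_one, num, num, mul_zero, zero_add] at this
    rw [eq_div_iff hb.ne', mul_comm, this, add_comm]
  have h1 := key m hm0 (fun t => (ω t).1.1)
  have h2 := key n hn0 (fun t => (ω t).1.2)
  ext i
  fin_cases i
  · exact h1
  · exact h2

theorem attractor_sub (hm : 2 ≤ m) (hmn : m < n) (P Q : Set E2) (hP : IsCompact P)
    (hQ : IsCompact Q) (hQne : Q.Nonempty)
    (h1 : ∀ x ∈ P, ∃ p ∈ D, ∃ y ∈ P, x = fmap m n p y)
    (h2 : ∀ p ∈ D, ∀ y ∈ Q, fmap m n p y ∈ Q) : P ⊆ Q := by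
  rcases P.eq_empty_or_nonempty with hPe | hPne
  · rw [hPe]; exact empty_subset _
  obtain ⟨x, hx, hmax⟩ := hP.exists_isMaxOn hPne (continuous_infDist_pt Q).continuousOn
  obtain ⟨p, hp, y, hy, hxy⟩ := h1 x hx
  obtain ⟨q, hq, hqd⟩ := hQ.exists_infDist_eq_dist hQne y
  have h3 : infDist x Q ≤ 1 / m * infDist y Q := by
    rw [hxy, hqd]
    exact (infDist_le_dist_of_mem (h2 p hp q hq)).trans (fmap_dist hm hmn p y q)
  have h4 : infDist y Q ≤ infDist x Q := hmax hy
  have hm2 : (2 : ℝ) ≤ m := by exact_mod_cast hm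
  have hm0 : (0 : ℝ) < m := by linarith
  have h5 : (1 : ℝ) / m ≤ 1 / 2 := one_div_le_one_div_of_le (by norm_num) hm2
  have h6 : 0 ≤ infDist y Q := infDist_nonneg
  have h7 : infDist x Q ≤ 0 := by nlinarith
  intro z hz
  have h8 : infDist z Q ≤ infDist x Q := hmax hz
  have h9 : infDist z Q = 0 := le_antisymm (by linarith) infDist_nonneg
  exact (hQ.isClosed.mem_iff_infDist_zero hQne).mpr h9

theorem attractor_eq (hm : 2 ≤ m) (hmn : m < n) (hD : D.Nonempty) (Λ : Set E2) (hne : Λ.Nonempty)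
    (hc : IsCompact Λ) (hΛ : Λ = ⋃ p ∈ D, fmap m n p '' Λ) : Λ = range (code D) := by
  obtain ⟨p0, hp0⟩ := hD
  have hR : IsCompact (range (code D)) := isCompact_range (code_cont D)
  have hRne : (range (code D)).Nonempty := ⟨_, ⟨fun _ => ⟨p0, hp0⟩, rfl⟩⟩
  have hΛ1 : ∀ x ∈ Λ, ∃ p ∈ D, ∃ y ∈ Λ, x = fmap m n p y := by
    intro x hx
    rw [hΛ] at hx
    simp only [mem_iUnion] at hx
    obtain ⟨p, hp, y, hy, rfl⟩ := hx
    exact ⟨p, hp, y, hy, rfl⟩
  have hΛ2 : ∀ p ∈ D, ∀ y ∈ Λ, fmap m n p y ∈ Λ := by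
    intro p hp y hy
    rw [hΛ]
    simp only [mem_iUnion]
    exact ⟨p, hp, y, hy, rfl⟩
  have hR1 : ∀ x ∈ range (code D), ∃ p ∈ D, ∃ y ∈ range (code D), x = fmap m n p y := by
    rintro _ ⟨ω, rfl⟩
    exact ⟨(ω 0).1, (ω 0).2, _, ⟨shift ω, rfl⟩, code_rec D hm hmn ω⟩
  have hR2 : ∀ p ∈ D, ∀ y ∈ range (code D), fmap m n p y ∈ range (code D) := by
    rintro p hp _ ⟨ω, rfl⟩
    refine ⟨fun t => if t = 0 then ⟨p, hp⟩ else ω (t - 1), ?_⟩
    rw [code_rec D hm hmn]
    rfl
  exact Subset.antisymm (attractor_sub D hm hmn Λ _ hc hR hRne hΛ1 hR2)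
    (attractor_sub D hm hmn _ Λ hR hc hne hR1 hΛ2)

end

end Pool.Agent.X125.BM
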