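import Pool.Agent.X125.BM.Geo

/-! The invariant measure and its Minkowski dimension. -/

set_option autoImplicit false
open MeasureTheory Filter Topology Set Metric
open scoped ENNReal

namespace Pool.Agent.X125.BM

/-- Minkowski dimension of a measure on the plane. -/
noncomputable def minkDim (μ : Measure E2) : ℝ :=
  sInf {s : ℝ | 0 ≤ s ∧ ∃ C : ℝ, 0 < C ∧ ∀ x ∈ μ.support, ∀ r : ℝ, 0 < r → r ≤ 1 →
    C * r ^ s ≤ μ.real (closedBall x r)}

/-- Least number of closed balls of radius `r` covering `S`. -/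
noncomputable def coverNum (S : Set E2) (r : ℝ) : ℕ :=
  sInf {c : ℕ | ∃ F : Finset E2, F.card = c ∧ S ⊆ ⋃ z ∈ F, closedBall z r}

/-- `S` has Minkowski (box-counting) dimension `d`. -/
def HasMinkowskiDim (S : Set E2) (d : ℝ) : Prop :=
  Tendsto (fun r : ℝ => Real.log (coverNum S r) / (-Real.log r)) (𝓝[>] 0) (𝓝 d)

section
variable {m n : ℕ} (D : Finset (Fin m × Fin n))

/-- The laws of the coordinates. -/
noncomputable def law (k t : ℕ) : Measure (Alph D) :=
  if t % L m n k < k then unif (fun a : Alph D => a) else unif (ch D)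

theorem law_prob (hD : D.Nonempty) (k t : ℕ) : IsProbabilityMeasure (law D k t) := by
  obtain ⟨p, hp⟩ := hD
  have : Nonempty (Alph D) := ⟨⟨p, hp⟩⟩
  have : Nonempty (Col D) := ⟨⟨p.1, Finset.mem_image_of_mem _ hp⟩⟩
  unfold law
  split_ifs
  · exact unif_prob _
  · exact unif_prob _

/-- The shift-invariant measure on sequences. -/
noncomputable def nu : Measure (ℕ → Alph D) :=
  mix (fun k => L m n (k + 1)) (fun k t => law D (k + 1) t)

theorem L_pos (hm : 2 ≤ m) (hmn : m < n) (k : ℕ) : 0 < L m n (k + 1) :=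
  lt_of_lt_of_le (Nat.succ_pos k) (le_L hm hmn (k + 1))

theorem nu_prob (hm : 2 ≤ m) (hmn : m < n) (hD : D.Nonempty) : IsProbabilityMeasure (nu D) := by
  have : ∀ k t, IsProbabilityMeasure (law D (k + 1) t) := fun k t => law_prob D hD (k + 1) t
  exact mix_prob _ (L_pos hm hmn) _

theorem nu_map (hm : 2 ≤ m) (hmn : m < n) (hD : D.Nonempty) : (nu D).map shift = nu D := by
  have : ∀ k t, IsProbabilityMeasure (law D (k + 1) t) := fun k t => law_prob D hD (k + 1) t
  refine mix_map _ (L_pos hm hmn) _ ?_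
  intro k i
  unfold law
  rw [Nat.add_mod_right]

/-- Names agreeing with `ω` in the approximate square of level `k`. -/
def cylQ (k : ℕ) (ω : ℕ → Alph D) : Set (ℕ → Alph D) :=
  {ω' | (∀ t < k, ω' t = ω t) ∧ ∀ t < L m n k, (ω' t).1.1 = (ω t).1.1}

theorem cylQ_eq (hm : 2 ≤ m) (hmn : m < n) (k : ℕ) (ω : ℕ → Alph D) : cylQ D k ω =
    Set.pi (Finset.range (L m n k)) (fun t => if t < k then {ω t} else {a | a.1.1 = (ω t).1.1}) := by
  have hkl := le_L (m := m) (n := n) hm hmn k
  ext ω'
  simp only [cylQ, Set.mem_pi, Finset.coe_range, Set.mem_Iio, Set.mem_ofPred_eq]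
  constructor
  · rintro ⟨h1, h2⟩ t ht
    split_ifs with h
    · exact h1 t h
    · exact h2 t ht
  · intro h
    constructor
    · intro t ht
      have := h t (by omega)
      rw [if_pos ht] at this
      exact this
    · intro t ht
      have := h t ht
      split_ifs at this with h'
      · rw [show ω' t = ω t from this]
      · exact this

theorem cylQ_meas (hm : 2 ≤ m) (hmn : m < n) (k : ℕ) (ω : ℕ → Alph D) :
    MeasurableSet (cylQ D k ω) := by
  rw [cylQ_eq D hm hmn]
  exact MeasurableSet.pi (Finset.countable_toSet _) fun _ _ => MeasurableSet.of_discrete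

theorem prod_ge (hm : 2 ≤ m) (hmn : m < n) (hD : D.Nonempty) (k : ℕ) (ω : ℕ → Alph D) :
    ((Fintype.card (QQ D k) : ℝ≥0∞))⁻¹ ≤
      Measure.infinitePi (fun t => law D k t) (cylQ D k ω) := by
  classical
  have hpr : ∀ t, IsProbabilityMeasure (law D k t) := fun t => law_prob D hD k t
  have hkl := le_L (m := m) (n := n) hm hmn k
  have hM : 0 < (D.image Prod.fst).card := Finset.card_pos.mpr (hD.image _)
  have hN : 0 < D.card := Finset.card_pos.mpr hD
  rw [cylQ_eq D hm hmn, Measure.infinitePi_pi]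
  · have h1 : ∀ t ∈ Finset.range (L m n k),
        (if t < k then ((D.card : ℝ≥0∞))⁻¹ else (((D.image Prod.fst).card : ℝ≥0∞))⁻¹) ≤
        law D k t (if t < k then {ω t} else {a | a.1.1 = (ω t).1.1}) := by
      intro t ht
      have ht' := Finset.mem_range.mp ht
      unfold law
      rw [Nat.mod_eq_of_lt ht']
      split_ifs with h
      · have := unif_ge (fun a : Alph D => a) ({ω t} : Set (Alph D)) (ω t) rfl
        rwa [Fintype.card_coe] at this
      · have := unif_ge (ch D) ({a | a.1.1 = (ω t).1.1} : Set (Alph D)) (colOf D (ω t))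
          (ch_fst D (colOf D (ω t)))
        rwa [Fintype.card_coe] at this
    refine le_trans ?_ (Finset.prod_le_prod' h1)
    rw [card_QQ]
    have h2 : ∏ t ∈ Finset.range (L m n k),
        (if t < k then ((D.card : ℝ≥0∞))⁻¹ else (((D.image Prod.fst).card : ℝ≥0∞))⁻¹) =
        ((D.card : ℝ≥0∞))⁻¹ ^ k * (((D.image Prod.fst).card : ℝ≥0∞))⁻¹ ^ (L m n k - k) := by
      rw [Finset.prod_ite, Finset.prod_const, Finset.prod_const]
      congr 2
      · have : (Finset.range (L m n k)).filter (fun t => t < k) = Finset.range k := by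
          ext t
          simp only [Finset.mem_filter, Finset.mem_range]
          omega
        rw [this, Finset.card_range]
      · have : (Finset.range (L m n k)).filter (fun t => ¬ t < k) = Finset.Ico k (L m n k) := by
          ext t
          simp only [Finset.mem_filter, Finset.mem_range, Finset.mem_Ico]
          omega
        rw [this, Nat.card_Ico]
    rw [h2]
    push_cast
    rw [ENNReal.mul_inv (Or.inr (ENNReal.pow_ne_top (ENNReal.natCast_ne_top _)))
      (Or.inr (pow_ne_zero _ (by exact_mod_cast hM.ne'))), ENNReal.inv_pow, ENNReal.inv_pow]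
  · intro t _
    exact MeasurableSet.of_discrete

theorem nu_cyl (hm : 2 ≤ m) (hmn : m < n) (hD : D.Nonempty) (k : ℕ) (ω : ℕ → Alph D) :
    1 / (((k : ℝ) + 1) * (k + 2)) * ((L m n (k + 1) : ℝ)⁻¹ * (Fintype.card (QQ D (k + 1)) : ℝ)⁻¹) ≤
      (nu D).real (cylQ D (k + 1) ω) := by
  have hp := nu_prob D hm hmn hD
  have h1 := mix_ge (fun k => L m n (k + 1)) (L_pos hm hmn) (fun k t => law D (k + 1) t) k
    (cylQ D (k + 1) ω) (cylQ_meas D hm hmn (k + 1) ω)
  have h2 := prod_ge D hm hmn hD (k + 1) ω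
  have h3 : wt k * ((L m n (k + 1) : ℝ≥0∞)⁻¹ * (Fintype.card (QQ D (k + 1)) : ℝ≥0∞)⁻¹) ≤
      nu D (cylQ D (k + 1) ω) := by
    refine le_trans ?_ h1
    gcongr
  have hL : (0 : ℝ) < L m n (k + 1) := by exact_mod_cast L_pos hm hmn k
  have hM : 0 < (D.image Prod.fst).card := Finset.card_pos.mpr (hD.image _)
  have hN : 0 < D.card := Finset.card_pos.mpr hD
  have hC : (0 : ℝ) < (Fintype.card (QQ D (k + 1)) : ℝ) := by
    rw [card_QQ]
    exact_mod_cast Nat.mul_pos (Nat.pow_pos hN) (Nat.pow_pos hM)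
  have h4 : wt k * ((L m n (k + 1) : ℝ≥0∞)⁻¹ * (Fintype.card (QQ D (k + 1)) : ℝ≥0∞)⁻¹) =
      ENNReal.ofReal (1 / (((k : ℝ) + 1) * (k + 2)) *
        ((L m n (k + 1) : ℝ)⁻¹ * (Fintype.card (QQ D (k + 1)) : ℝ)⁻¹)) := by
    rw [ENNReal.ofReal_mul (by positivity), ENNReal.ofReal_mul (by positivity),
      ENNReal.ofReal_inv_of_pos hL, ENNReal.ofReal_inv_of_pos hC, ENNReal.ofReal_natCast,
      ENNReal.ofReal_natCast]
    rfl
  rw [h4] at h3
  rw [Measure.real]
  exact (ENNReal.ofReal_le_iff_le_toReal (measure_ne_top _ _)).mp h3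

/-! ### The coding map -/

theorem code_cont : Continuous (code D) := by
  unfold code
  have h1 : Continuous fun ω : ℕ → Alph D => Real.ofDigits (fun t => (ω t).1.1) := by
    refine Real.continuous_ofDigits.comp (continuous_pi fun t => ?_)
    exact (continuous_fst.comp continuous_subtype_val).comp (continuous_apply t)
  have h2 : Continuous fun ω : ℕ → Alph D => Real.ofDigits (fun t => (ω t).1.2) := by
    refine Real.continuous_ofDigits.comp (continuous_pi fun t => ?_)
    exact (continuous_snd.comp continuous_subtype_val).comp (continuous_apply t)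
  refine (PiLp.continuous_toLp 2 _).comp (continuous_pi fun i => ?_)
  fin_cases i
  · exact h1
  · exact h2

theorem code_measurable : Measurable (code D) := by
  have h := (code_cont D)
  exact h.measurable

/-- Lower bound for the measure of balls centred on the carpet. -/
theorem ball_ge (hm : 2 ≤ m) (hmn : m < n) (hD : D.Nonempty) (s : ℝ) (hs0 : 0 ≤ s) (hs : dd D < s) :
    ∃ C : ℝ, 0 < C ∧ ∀ ω : ℕ → Alph D, ∀ r : ℝ, 0 < r → r ≤ 1 →
      C * r ^ s ≤ ((nu D).map (code D)).real (closedBall (code D ω) r) := by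
  have hp := nu_prob D hm hmn hD
  have hm0 : (0 : ℝ) < m := by exact_mod_cast (by omega : 0 < m)
  have hn0 : (0 : ℝ) < n := by exact_mod_cast (by omega : 0 < n)
  have hn1 : (1 : ℝ) < n := by exact_mod_cast (by omega : 1 < n)
  have hlm : 0 < Real.log m := Real.log_pos (by exact_mod_cast (by omega : 1 < m))
  have hln : 0 < Real.log n := Real.log_pos hn1
  have hMn : 0 < (D.image Prod.fst).card := Finset.card_pos.mpr (hD.image _)
  have hNn : 0 < D.card := Finset.card_pos.mpr hD
  have hM : (0 : ℝ) < (D.image Prod.fst).card := by exact_mod_cast hMn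
  set κ := Real.log n / Real.log m with hκ
  have hκ0 : 0 < κ := by positivity
  set ρ := Real.exp (-((s - dd D) * Real.log n)) with hρ
  have hρ0 : 0 < ρ := Real.exp_pos _
  have hρ1 : ρ < 1 := by
    rw [hρ, Real.exp_lt_one_iff]
    have : 0 < (s - dd D) * Real.log n := mul_pos (by linarith) hln
    linarith
  obtain ⟨B, hB⟩ := (tendsto_pow_const_mul_const_pow_of_abs_lt_one 3 (r := ρ) (by
    rw [abs_of_pos hρ0]; exact hρ1)).bddAbove_range
  have hB' : ∀ k : ℕ, ((k : ℝ) ^ 3 * ρ ^ k) ≤ B := fun k => hB ⟨k, rfl⟩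
  have hB0 : 0 < B := lt_of_lt_of_le hρ0 (by simpa using hB' 1)
  -- constant
  set Z := (κ + 1) * (D.image Prod.fst).card * Real.exp (dd D * Real.log n) * 2 ^ s *
    (B / ρ ^ 2) with hZ
  have hZ0 : 0 < Z := by positivity
  refine ⟨1 / Z, by positivity, fun ω r hr0 hr1 => ?_⟩
  -- choose k
  have hex : ∃ k : ℕ, 2 * (1 / (n : ℝ) ^ k) ≤ r := by
    have h1 : Tendsto (fun k : ℕ => 2 * (1 / (n : ℝ)) ^ k) atTop (𝓝 (2 * 0)) :=
      (tendsto_pow_atTop_nhds_zero_of_lt_one (by positivity)
        (by rw [div_lt_one hn0]; exact hn1)).const_mul _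
    rw [mul_zero] at h1
    obtain ⟨k, hk⟩ := (h1.eventually_lt_const hr0).exists
    refine ⟨k, ?_⟩
    rw [div_pow, one_pow] at hk
    exact hk.le
  classical
  set k1 := Nat.find hex with hk1
  have hk1s : 2 * (1 / (n : ℝ) ^ k1) ≤ r := Nat.find_spec hex
  have hk1pos : k1 ≠ 0 := by
    intro h
    rw [h] at hk1s
    norm_num at hk1s
    linarith
  obtain ⟨k, hk⟩ := Nat.exists_eq_succ_of_ne_zero hk1pos
  have hkm : r < 2 * (1 / (n : ℝ) ^ k) := by
    by_contra hcon
    push Not at hcon
    have := Nat.find_min' hex hcon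
    omega
  rw [hk, Nat.succ_eq_add_one] at hk1s
  -- ball contains the cylinder
  have hsub : cylQ D (k + 1) ω ⊆ code D ⁻¹' closedBall (code D ω) r := by
    rintro ω' ⟨h1, h2⟩
    refine le_trans (code_close D hm hmn (k + 1) ω' ω (fun t ht => by rw [h1 t ht]) h2) hk1s
  have hball : (nu D).real (cylQ D (k + 1) ω) ≤
      ((nu D).map (code D)).real (closedBall (code D ω) r) := by
    rw [Measure.real, Measure.real, Measure.map_apply (code_measurable D) measurableSet_closedBall]
    exact ENNReal.toReal_mono (measure_ne_top _ _) (measure_mono hsub)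
  refine le_trans ?_ ((nu_cyl D hm hmn hD k ω).trans hball)
  -- numeric estimate
  set Q := (Fintype.card (QQ D (k + 1)) : ℝ) with hQ
  have hQ0 : 0 < Q := by
    rw [hQ, card_QQ]
    exact_mod_cast Nat.mul_pos (Nat.pow_pos hNn) (Nat.pow_pos hMn)
  have hQle : Q ≤ (D.image Prod.fst).card * Real.exp (dd D * Real.log n) *
      Real.exp (k * (dd D * Real.log n)) := by
    have h1 := (log_card D hm hmn hD (k + 1)).2
    rw [← hQ] at h1
    have h2 := Real.exp_le_exp.mpr h1
    rw [Real.exp_log hQ0, Real.exp_add, Real.exp_log hM] at h2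
    refine h2.trans (le_of_eq ?_)
    rw [mul_assoc ((D.image Prod.fst).card : ℝ), ← Real.exp_add, mul_comm]
    congr 2
    push_cast
    ring
  have hLle : (L m n (k + 1) : ℝ) ≤ (κ + 1) * (k + 2) := by
    have h1 := L_le (m := m) (n := n) hm hmn (k + 1)
    rw [← hκ] at h1
    push_cast at h1
    have : (0 : ℝ) ≤ k := by positivity
    nlinarith
  have hL0 : (0 : ℝ) < L m n (k + 1) := by exact_mod_cast L_pos hm hmn k
  have hrs : r ^ s ≤ 2 ^ s * Real.exp (-(k * (s * Real.log n))) := by
    have h1 : r ^ s ≤ (2 * (1 / (n : ℝ) ^ k)) ^ s := Real.rpow_le_rpow hr0.le hkm.le hs0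
    refine h1.trans (le_of_eq ?_)
    rw [Real.mul_rpow (by norm_num) (by positivity)]
    congr 1
    rw [Real.rpow_def_of_pos (by positivity), one_div, Real.log_inv, Real.log_pow]
    congr 1
    ring
  have hk0 : (0 : ℝ) ≤ k := by positivity
  have hpoly : ((k : ℝ) + 1) * (k + 2) * (k + 2) * ρ ^ k ≤ B / ρ ^ 2 := by
    have h1 := hB' (k + 2)
    push_cast at h1
    rw [le_div_iff₀ (by positivity)]
    have h2 : ((k : ℝ) + 1) * (k + 2) * (k + 2) * ρ ^ k * ρ ^ 2 =
        ((k : ℝ) + 1) * (k + 2) * (k + 2) * ρ ^ (k + 2) := by rw [pow_add]; ring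
    rw [h2]
    refine le_trans ?_ h1
    gcongr
    nlinarith [mul_nonneg hk0 hk0]
  have hρk : ρ ^ k = Real.exp (-(k * (s * Real.log n))) * Real.exp (k * (dd D * Real.log n)) := by
    rw [hρ, ← Real.exp_nat_mul, ← Real.exp_add]
    congr 1
    ring
  -- final
  have hden : 0 < ((k : ℝ) + 1) * (k + 2) * (L m n (k + 1)) * Q := by positivity
  have e1 : 1 / (((k : ℝ) + 1) * (k + 2)) * ((L m n (k + 1) : ℝ)⁻¹ * Q⁻¹) =
      1 / (((k : ℝ) + 1) * (k + 2) * (L m n (k + 1)) * Q) := by
    field_simp
  rw [e1, le_div_iff₀ hden, div_mul_eq_mul_div, one_mul, div_mul_eq_mul_div, div_le_one hZ0]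
  calc r ^ s * (((k : ℝ) + 1) * (k + 2) * (L m n (k + 1)) * Q)
      ≤ (2 ^ s * Real.exp (-(k * (s * Real.log n)))) * (((k : ℝ) + 1) * (k + 2) *
        ((κ + 1) * (k + 2)) * ((D.image Prod.fst).card * Real.exp (dd D * Real.log n) *
      Real.exp (k * (dd D * Real.log n)))) := by gcongr
    _ = (κ + 1) * (D.image Prod.fst).card * Real.exp (dd D * Real.log n) * 2 ^ s *
        (((k : ℝ) + 1) * (k + 2) * (k + 2) * ρ ^ k) := by
        rw [hρk]
        ring
    _ ≤ Z := by
        rw [hZ]
        gcongr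

/-- Upper bound: an exponent that works is at least the dimension. -/
theorem exponent_ge (hm : 2 ≤ m) (hmn : m < n) (hD : D.Nonempty) (μ : Measure E2)
    [IsProbabilityMeasure μ] (s C : ℝ) (hC : 0 < C)
    (h : ∀ ω : ℕ → Alph D, ∀ r : ℝ, 0 < r → r ≤ 1 → C * r ^ s ≤ μ.real (closedBall (code D ω) r)) :
    dd D ≤ s := by
  classical
  obtain ⟨p, hp⟩ := hD
  set a0 : Alph D := ⟨p, hp⟩
  have hD : D.Nonempty := ⟨p, hp⟩
  have hn0 : (0 : ℝ) < n := by exact_mod_cast (by omega : 0 < n)
  have hn1 : (1 : ℝ) < n := by exact_mod_cast (by omega : 1 < n)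
  have hln : 0 < Real.log n := Real.log_pos hn1
  have hMn : 0 < (D.image Prod.fst).card := Finset.card_pos.mpr (hD.image _)
  have hNn : 0 < D.card := Finset.card_pos.mpr hD
  have key : ∀ k : ℕ, (Fintype.card (QQ D k) : ℝ) * (C * (1 / (n : ℝ) ^ k) ^ s) ≤
      (2 * m + 2) * 4 := by
    intro k
    set r := 1 / (n : ℝ) ^ k with hr
    have hr0 : 0 < r := by positivity
    have hr1 : r ≤ 1 := by
      rw [hr, div_le_one (by positivity)]
      exact one_le_pow₀ hn1.le
    have h1 : (Fintype.card (QQ D k) : ℝ) * (C * r ^ s) ≤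
        ∑ Q : QQ D k, μ.real (closedBall (code D (rep D a0 k Q)) r) := by
      have := Finset.card_nsmul_le_sum (Finset.univ : Finset (QQ D k))
        (fun Q => μ.real (closedBall (code D (rep D a0 k Q)) r)) (C * r ^ s)
        (fun Q _ => h _ r hr0 hr1)
      rwa [nsmul_eq_mul, Finset.card_univ] at this
    refine h1.trans ?_
    have h2 : ∑ Q : QQ D k, μ.real (closedBall (code D (rep D a0 k Q)) r) =
        ∫ z, ∑ Q : QQ D k, (closedBall (code D (rep D a0 k Q)) r).indicator (fun _ => (1 : ℝ)) z ∂μ := by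
      rw [integral_finsetSum _ (fun Q _ => (integrable_const _).indicator measurableSet_closedBall)]
      refine Finset.sum_congr rfl fun Q _ => ?_
      rw [integral_indicator_const _ measurableSet_closedBall]
      simp
    rw [h2]
    have h3 : ∀ z : E2, ∑ Q : QQ D k,
        (closedBall (code D (rep D a0 k Q)) r).indicator (fun _ => (1 : ℝ)) z ≤ (2 * m + 2) * 4 := by
      intro z
      have h4 := overlap D hm hmn a0 k z r le_rfl
        (Finset.univ.filter fun Q => dist (code D (rep D a0 k Q)) z ≤ r)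
        (fun Q hQ => (Finset.mem_filter.mp hQ).2)
      refine le_trans (le_of_eq ?_) h4
      rw [Finset.card_filter]
      push_cast
      refine Finset.sum_congr rfl fun Q _ => ?_
      by_cases hz : dist (code D (rep D a0 k Q)) z ≤ r
      · rw [if_pos hz, indicator_of_mem (by rw [mem_closedBall, dist_comm]; exact hz)]
      · rw [if_neg hz, indicator_of_notMem (by rw [mem_closedBall, dist_comm]; exact hz)]
    calc ∫ z, ∑ Q : QQ D k,
          (closedBall (code D (rep D a0 k Q)) r).indicator (fun _ => (1 : ℝ)) z ∂μ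
        ≤ ∫ _, ((2 * m + 2) * 4 : ℝ) ∂μ := by
          apply integral_mono
          · exact integrable_finsetSum _ fun Q _ =>
              (integrable_const _).indicator measurableSet_closedBall
          · exact integrable_const _
          · exact h3
      _ = (2 * m + 2) * 4 := by simp
  -- take logarithms
  by_contra hcon
  push Not at hcon
  set γ := (dd D - s) * Real.log n with hγ
  have hγ0 : 0 < γ := mul_pos (by linarith) hln
  have key2 : ∀ k : ℕ, k * γ + Real.log C ≤ Real.log ((2 * m + 2) * 4) := by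
    intro k
    have hQ0 : (0 : ℝ) < (Fintype.card (QQ D k) : ℝ) := by
      rw [card_QQ]
      exact_mod_cast Nat.mul_pos (Nat.pow_pos hNn) (Nat.pow_pos hMn)
    have hr0 : (0 : ℝ) < 1 / (n : ℝ) ^ k := by positivity
    have h1 := Real.log_le_log (by positivity) (key k)
    rw [Real.log_mul hQ0.ne' (by positivity), Real.log_mul hC.ne' (by positivity),
      Real.log_rpow hr0, one_div, Real.log_inv, Real.log_pow] at h1
    have h2 := (log_card D hm hmn hD k).1
    have h3 : k * γ = k * dd D * Real.log n - s * (k * Real.log n) := by rw [hγ]; ring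
    rw [h3]
    linarith
  obtain ⟨k, hk⟩ := exists_nat_gt ((Real.log ((2 * m + 2) * 4) - Real.log C) / γ)
  rw [div_lt_iff₀ hγ0] at hk
  have := key2 k
  linarith

theorem minkDim_nu (hm : 2 ≤ m) (hmn : m < n) (hD : D.Nonempty) :
    minkDim ((nu D).map (code D)) = dd D := by
  have hp := nu_prob D hm hmn hD
  have : IsProbabilityMeasure ((nu D).map (code D)) :=
    Measure.isProbabilityMeasure_map (code_measurable D).aemeasurable
  have hlm : 0 < Real.log m := Real.log_pos (by exact_mod_cast (by omega : 1 < m))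
  have hln : 0 < Real.log n := Real.log_pos (by exact_mod_cast (by omega : 1 < n))
  have hMn : 0 < (D.image Prod.fst).card := Finset.card_pos.mpr (hD.image _)
  have hdd : 0 ≤ dd D := by
    have h1 := (log_card D hm hmn hD 0)
    unfold dd
    have h2 : (1 : ℝ) ≤ (D.card : ℝ) / (D.image Prod.fst).card := by
      rw [le_div_iff₀ (by exact_mod_cast hMn), one_mul]
      exact_mod_cast Finset.card_image_le
    have h3 : 0 ≤ Real.log ((D.image Prod.fst).card) := Real.log_nonneg (by exact_mod_cast hMn)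
    have h4 := Real.log_nonneg h2
    positivity
  -- the support is the carpet
  have hrange : IsClosed (range (code D)) := by
    have : CompactSpace (ℕ → Alph D) := inferInstance
    exact (isCompact_range (code_cont D)).isClosed
  have hsupp1 : ((nu D).map (code D)).support ⊆ range (code D) := by
    apply Measure.support_subset_of_isClosed hrange
    rw [mem_ae_iff, Measure.map_apply (code_measurable D) hrange.measurableSet.compl]
    have : code D ⁻¹' (range (code D))ᶜ = ∅ := by
      ext ω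
      simp
    rw [this]
    simp
  have hsupp2 : ∀ ω, code D ω ∈ ((nu D).map (code D)).support := by
    intro ω
    rw [Measure.mem_support_iff_forall]
    intro U hU
    obtain ⟨ε, hε, hsub⟩ := Metric.nhds_basis_closedBall.mem_iff.mp hU
    obtain ⟨C, hC, hb⟩ := ball_ge D hm hmn hD (dd D + 1) (by linarith) (by linarith)
    have h1 := hb ω (min ε 1) (by positivity) (min_le_right _ _)
    have h2 : 0 < ((nu D).map (code D)).real (closedBall (code D ω) (min ε 1)) :=
      lt_of_lt_of_le (by positivity) h1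
    have h3 : 0 < ((nu D).map (code D)) (closedBall (code D ω) (min ε 1)) := by
      rw [Measure.real] at h2
      exact (ENNReal.toReal_pos_iff.mp h2).1
    refine lt_of_lt_of_le h3 (measure_mono (subset_trans ?_ hsub))
    exact closedBall_subset_closedBall (min_le_left _ _)
  unfold minkDim
  set S := {s : ℝ | 0 ≤ s ∧ ∃ C : ℝ, 0 < C ∧ ∀ x ∈ ((nu D).map (code D)).support, ∀ r : ℝ,
    0 < r → r ≤ 1 → C * r ^ s ≤ ((nu D).map (code D)).real (closedBall x r)} with hS
  have hmem : ∀ s, dd D < s → s ∈ S := by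
    intro s hs
    obtain ⟨C, hC, hb⟩ := ball_ge D hm hmn hD s (by linarith) hs
    refine ⟨by linarith, C, hC, fun x hx r hr0 hr1 => ?_⟩
    obtain ⟨ω, rfl⟩ := hsupp1 hx
    exact hb ω r hr0 hr1
  have hlow : ∀ s ∈ S, dd D ≤ s := by
    rintro s ⟨_, C, hC, hb⟩
    exact exponent_ge D hm hmn hD _ s C hC fun ω r hr0 hr1 => hb _ (hsupp2 ω) r hr0 hr1
  have hbdd : BddBelow S := ⟨dd D, hlow⟩
  apply le_antisymm
  · refine le_of_forall_pos_le_add fun ε hε => ?_
    exact csInf_le hbdd (hmem _ (by linarith))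
  · exact le_csInf ⟨dd D + 1, hmem _ (by linarith)⟩ hlow

end

end Pool.Agent.X125.BM
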