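import Pool.Agent.X125.BM.Meas

/-! Bedford-McMullen carpets: coding, approximate squares, counting. -/

set_option autoImplicit false
open MeasureTheory Filter Topology Set Metric
open scoped ENNReal

namespace Pool.Agent.X125.BM

/-- The plane. -/
abbrev E2 : Type := EuclideanSpace ℝ (Fin 2)

/-- The alphabet. -/
abbrev Alph {m n : ℕ} (D : Finset (Fin m × Fin n)) : Type := {p : Fin m × Fin n // p ∈ D}

/-- The nonempty columns. -/
abbrev Col {m n : ℕ} (D : Finset (Fin m × Fin n)) : Type := {c : Fin m // c ∈ D.image Prod.fst}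

/-- The coding map `π(ω) = (∑ i_t m^{-t}, ∑ j_t n^{-t})`. -/
noncomputable def code {m n : ℕ} (D : Finset (Fin m × Fin n)) (ω : ℕ → Alph D) : E2 :=
  !₂[Real.ofDigits (fun t => (ω t).1.1), Real.ofDigits (fun t => (ω t).1.2)]

/-- The integer with the given leading digits. -/
def num (b : ℕ) (d : ℕ → ℕ) : ℕ → ℕ
  | 0 => 0
  | l + 1 => b * num b d l + d l

theorem num_inj (b : ℕ) (d d' : ℕ → ℕ) (hd : ∀ i, d i < b) (hd' : ∀ i, d' i < b) (l : ℕ)
    (h : num b d l = num b d' l) : ∀ i < l, d i = d' i := by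
  induction l with
  | zero => intro i hi; omega
  | succ l ih =>
    have hb : 0 < b := by have := hd 0; omega
    have h1 : b * num b d l + d l = b * num b d' l + d' l := h
    have h2 : d l = d' l := by
      have := congrArg (· % b) h1
      simpa [Nat.add_mod, Nat.mod_eq_of_lt (hd l), Nat.mod_eq_of_lt (hd' l)] using this
    have h3 : num b d l = num b d' l := by
      rw [h2] at h1
      exact Nat.eq_of_mul_eq_mul_left hb (by omega)
    intro i hi
    rcases Nat.lt_succ_iff_lt_or_eq.mp hi with h4 | h4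
    · exact ih h3 i h4
    · rw [h4]; exact h2

theorem ofDigits_num {b : ℕ} (x : ℕ → Fin b) (l : ℕ) :
    (b : ℝ) ^ l * Real.ofDigits x =
      (num b (fun i => (x i).val) l : ℝ) + Real.ofDigits (fun i => x (i + l)) := by
  have hb : (0 : ℝ) < b := by exact_mod_cast (Fin.pos (x 0))
  have h1 : (b : ℝ) ^ l * ∑ i ∈ Finset.range l, Real.ofDigitsTerm x i =
      (num b (fun i => (x i).val) l : ℝ) := by
    induction l with
    | zero => simp [num]
    | succ l ih =>
      rw [Finset.sum_range_succ, mul_add, pow_succ, mul_comm ((b : ℝ) ^ l) b, mul_assoc, ih, num,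
        Real.ofDigitsTerm]
      push_cast
      have : (b : ℝ) * ((b : ℝ) ^ l * (((x l).val : ℝ) * ((b : ℝ) ^ (l + 1))⁻¹)) = (x l).val := by
        field_simp
        ring
      rw [mul_assoc, this]
  rw [Real.ofDigits_eq_sum_add_ofDigits x l, mul_add, h1, ← mul_assoc,
    mul_inv_cancel₀ (by positivity), one_mul]

theorem dist_le_two (x y : E2) (a : ℝ) (h0 : |x 0 - y 0| ≤ a) (h1 : |x 1 - y 1| ≤ a) :
    dist x y ≤ 2 * a := by
  have ha : 0 ≤ a := (abs_nonneg _).trans h0
  rw [EuclideanSpace.dist_eq, Fin.sum_univ_two, Real.sqrt_le_left (by positivity)]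
  rw [Real.dist_eq, Real.dist_eq, sq_abs, sq_abs]
  have e0 := abs_le.mp h0
  have e1 := abs_le.mp h1
  nlinarith [sq_nonneg (x 0 - y 0), sq_nonneg (x 1 - y 1), sq_abs (x 0 - y 0),
    sq_abs (x 1 - y 1), mul_self_le_mul_self (abs_nonneg _) h0,
    mul_self_le_mul_self (abs_nonneg _) h1]

theorem coord_le (x y : E2) (i : Fin 2) : |x i - y i| ≤ dist x y := by
  rw [dist_eq_norm]
  have := PiLp.norm_apply_le (x - y) i
  simpa using this

section
variable {m n : ℕ} (D : Finset (Fin m × Fin n))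

/-- The number of horizontal digits of an approximate square of level `k`. -/
noncomputable def L (m n k : ℕ) : ℕ := Nat.clog m (n ^ k)

theorem L_lower (hm : 2 ≤ m) (k : ℕ) : n ^ k ≤ m ^ L m n k := Nat.le_pow_clog (by omega) _

theorem L_upper (hm : 2 ≤ m) (hmn : m < n) (k : ℕ) : m ^ L m n k < m * n ^ k := by
  rcases Nat.eq_zero_or_pos k with rfl | hk
  · simp [L]
    omega
  · have h1 : 1 < n ^ k := Nat.one_lt_pow (by omega) (by omega)
    have h2 := Nat.pow_pred_clog_lt_self (b := m) (by omega) h1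
    have h3 : 0 < Nat.clog m (n ^ k) := Nat.clog_pos (by omega) (by omega)
    obtain ⟨c, hc⟩ : ∃ c, Nat.clog m (n ^ k) = c + 1 := ⟨Nat.clog m (n ^ k) - 1, by omega⟩
    rw [hc] at h2
    simp only [Nat.pred_succ] at h2
    rw [L, hc, pow_succ, mul_comm]
    exact Nat.mul_lt_mul_of_pos_left h2 (by omega)

theorem le_L (hm : 2 ≤ m) (hmn : m < n) (k : ℕ) : k ≤ L m n k := by
  have h1 := L_lower (m := m) (n := n) hm k
  have h2 : m ^ k ≤ m ^ L m n k := le_trans (Nat.pow_le_pow_left hmn.le k) h1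
  exact (Nat.pow_le_pow_iff_right (by omega)).mp h2

/-- Agreement of digits forces closeness. -/
theorem code_close (hm : 2 ≤ m) (hmn : m < n) (k : ℕ) (ω ω' : ℕ → Alph D)
    (h1 : ∀ t < k, (ω t).1.2 = (ω' t).1.2) (h2 : ∀ t < L m n k, (ω t).1.1 = (ω' t).1.1) :
    dist (code D ω) (code D ω') ≤ 2 * (1 / (n : ℝ) ^ k) := by
  have hn0 : (0 : ℝ) < (n : ℝ) ^ k := by
    have : (0 : ℝ) < n := by exact_mod_cast (by omega : 0 < n)
    positivity
  apply dist_le_two
  · have := Real.abs_ofDigits_sub_ofDigits_le (x := fun t => (ω t).1.1)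
      (y := fun t => (ω' t).1.1) (n := L m n k) h2
    refine le_trans this ?_
    rw [one_div]
    apply inv_anti₀ hn0
    exact_mod_cast L_lower (m := m) (n := n) hm k
  · have := Real.abs_ofDigits_sub_ofDigits_le (x := fun t => (ω t).1.2)
      (y := fun t => (ω' t).1.2) (n := k) h1
    refine le_trans this ?_
    rw [one_div]

/-- A letter in a given column. -/
noncomputable def ch (c : Col D) : Alph D :=
  ⟨((Finset.mem_image.mp c.2).choose), (Finset.mem_image.mp c.2).choose_spec.1⟩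

theorem ch_fst (c : Col D) : (ch D c).1.1 = c.1 := (Finset.mem_image.mp c.2).choose_spec.2

/-- The column of a letter. -/
def colOf (a : Alph D) : Col D := ⟨a.1.1, Finset.mem_image_of_mem _ a.2⟩

/-- Names of approximate squares. -/
abbrev QQ (k : ℕ) : Type := (Fin k → Alph D) × (Fin (L m n k - k) → Col D)

/-- A representative. -/
noncomputable def rep (a0 : Alph D) (k : ℕ) (Q : QQ D k) : ℕ → Alph D := fun t =>
  if h : t < k then Q.1 ⟨t, h⟩ else
    if h' : t - k < L m n k - k then ch D (Q.2 ⟨t - k, h'⟩) else a0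

theorem card_QQ (k : ℕ) : Fintype.card (QQ D k) =
    D.card ^ k * (D.image Prod.fst).card ^ (L m n k - k) := by
  rw [Fintype.card_prod, Fintype.card_fun, Fintype.card_fun, Fintype.card_fin, Fintype.card_fin,
    Fintype.card_coe, Fintype.card_coe]

theorem rep_cover (hm : 2 ≤ m) (hmn : m < n) (a0 : Alph D) (k : ℕ) (ω : ℕ → Alph D) :
    ∃ Q : QQ D k, dist (code D ω) (code D (rep D a0 k Q)) ≤ 2 * (1 / (n : ℝ) ^ k) := by
  refine ⟨(fun t => ω t, fun t => colOf D (ω (k + t))), code_close D hm hmn k _ _ ?_ ?_⟩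
  · intro t ht
    simp [rep, ht]
  · intro t ht
    by_cases h : t < k
    · simp [rep, h]
    · have h' : t - k < L m n k - k := by omega
      simp only [rep, h, h', dif_pos, dif_neg, not_false_iff]
      rw [ch_fst]
      have e : k + (t - k) = t := by omega
      show (ω t).1.1 = (ω (k + (t - k))).1.1
      rw [e]

theorem card_Icc_le (u w : ℝ) (hw : 0 ≤ w) :
    ((Finset.Icc ⌈u⌉ ⌊u + w⌋).card : ℝ) ≤ w + 1 := by
  rw [Int.card_Icc]
  have h1 : (⌊u + w⌋ : ℝ) ≤ u + w := Int.floor_le _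
  have h2 : u ≤ (⌈u⌉ : ℝ) := Int.le_ceil _
  have h3 : ((⌊u + w⌋ + 1 - ⌈u⌉ : ℤ) : ℝ) ≤ w + 1 := by
    push_cast
    linarith
  have h4 : (((⌊u + w⌋ + 1 - ⌈u⌉).toNat : ℤ) : ℝ) ≤ w + 1 := by
    rcases le_total (⌊u + w⌋ + 1 - ⌈u⌉) 0 with h | h
    · rw [Int.toNat_of_nonpos h]
      simp
      linarith
    · rw [Int.toNat_of_nonneg h]
      exact h3
  exact_mod_cast h4

/-- A small ball contains few representatives. -/
theorem overlap (hm : 2 ≤ m) (hmn : m < n) (a0 : Alph D) (k : ℕ) (z : E2) (r : ℝ)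
    (hr : r ≤ 1 / (n : ℝ) ^ k) (S : Finset (QQ D k))
    (hS : ∀ Q ∈ S, dist (code D (rep D a0 k Q)) z ≤ r) :
    (S.card : ℝ) ≤ (2 * m + 2) * 4 := by
  classical
  have hm0 : (0 : ℝ) < m := by exact_mod_cast (by omega : 0 < m)
  have hn0 : (0 : ℝ) < n := by exact_mod_cast (by omega : 0 < n)
  set l := L m n k with hl
  set a : QQ D k → ℕ := fun Q => num m (fun i => ((rep D a0 k Q i).1.1).val) l with ha
  set b : QQ D k → ℕ := fun Q => num n (fun i => ((rep D a0 k Q i).1.2).val) k with hb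
  have hinj : ∀ Q Q' : QQ D k, a Q = a Q' → b Q = b Q' → Q = Q' := by
    intro Q Q' h1 h2
    have e1 := num_inj m _ _ (fun i => ((rep D a0 k Q i).1.1).isLt)
      (fun i => ((rep D a0 k Q' i).1.1).isLt) l h1
    have e2 := num_inj n _ _ (fun i => ((rep D a0 k Q i).1.2).isLt)
      (fun i => ((rep D a0 k Q' i).1.2).isLt) k h2
    have hkl : k ≤ l := le_L hm hmn k
    apply Prod.ext
    · funext t
      have f1 := e1 t.1 (lt_of_lt_of_le t.2 hkl)
      have f2 := e2 t.1 t.2
      simp only [rep, t.2, dif_pos] at f1 f2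
      apply Subtype.ext
      exact Prod.ext (Fin.ext f1) (Fin.ext f2)
    · funext t
      have f1 := e1 (k + t.1) (by have := t.2; omega)
      have g1 : ¬ (k + t.1 < k) := by omega
      have g2 : k + t.1 - k < L m n k - k := by have := t.2; omega
      simp only [rep, g1, g2, dif_pos, dif_neg, not_false_iff, ch_fst] at f1
      have g3 : (⟨k + t.1 - k, g2⟩ : Fin (L m n k - k)) = t := Fin.ext (by simp)
      rw [g3] at f1
      exact Subtype.ext (Fin.ext f1)
  set u : ℝ := (m : ℝ) ^ l * z 0 - m - 1 with hu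
  set v : ℝ := (n : ℝ) ^ k * z 1 - 1 - 1 with hv
  have hmem : ∀ Q ∈ S, ((a Q : ℤ), (b Q : ℤ)) ∈
      (Finset.Icc ⌈u⌉ ⌊u + (2 * m + 1)⌋) ×ˢ (Finset.Icc ⌈v⌉ ⌊v + 3⌋) := by
    intro Q hQ
    have h1 := hS Q hQ
    have h2 : |Real.ofDigits (fun t => (rep D a0 k Q t).1.1) - z 0| ≤ r :=
      (coord_le (code D (rep D a0 k Q)) z 0).trans h1
    have h3 : |Real.ofDigits (fun t => (rep D a0 k Q t).1.2) - z 1| ≤ r :=
      (coord_le (code D (rep D a0 k Q)) z 1).trans h1
    have h4 := ofDigits_num (fun t => (rep D a0 k Q t).1.1) l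
    have h5 := ofDigits_num (fun t => (rep D a0 k Q t).1.2) k
    have p1 := Real.ofDigits_nonneg (fun i => (fun t => (rep D a0 k Q t).1.1) (i + l))
    have p2 := Real.ofDigits_le_one (fun i => (fun t => (rep D a0 k Q t).1.1) (i + l))
    have p3 := Real.ofDigits_nonneg (fun i => (fun t => (rep D a0 k Q t).1.2) (i + k))
    have p4 := Real.ofDigits_le_one (fun i => (fun t => (rep D a0 k Q t).1.2) (i + k))
    have hlu : (m : ℝ) ^ l ≤ m * (n : ℝ) ^ k := by
      exact_mod_cast (L_upper (m := m) (n := n) hm hmn k).le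
    have q1 : (m : ℝ) ^ l * r ≤ m := by
      calc (m : ℝ) ^ l * r ≤ (m : ℝ) ^ l * (1 / (n : ℝ) ^ k) := by gcongr
        _ ≤ (m * (n : ℝ) ^ k) * (1 / (n : ℝ) ^ k) := by gcongr
        _ = m := by field_simp
    have q2 : (n : ℝ) ^ k * r ≤ 1 := by
      calc (n : ℝ) ^ k * r ≤ (n : ℝ) ^ k * (1 / (n : ℝ) ^ k) := by gcongr
        _ = 1 := by field_simp
    have s1 := abs_le.mp h2
    have s2 := abs_le.mp h3
    have t1 : (m : ℝ) ^ l * Real.ofDigits (fun t => (rep D a0 k Q t).1.1) ≤
        (m : ℝ) ^ l * z 0 + m := by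
      have : (m : ℝ) ^ l * (Real.ofDigits (fun t => (rep D a0 k Q t).1.1) - z 0) ≤
        (m : ℝ) ^ l * r := mul_le_mul_of_nonneg_left s1.2 (by positivity)
      rw [mul_sub] at this
      linarith
    have t2 : (m : ℝ) ^ l * z 0 - m ≤
        (m : ℝ) ^ l * Real.ofDigits (fun t => (rep D a0 k Q t).1.1) := by
      have : (m : ℝ) ^ l * (-r) ≤
        (m : ℝ) ^ l * (Real.ofDigits (fun t => (rep D a0 k Q t).1.1) - z 0) :=
        mul_le_mul_of_nonneg_left s1.1 (by positivity)
      rw [mul_sub, mul_neg] at this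
      linarith
    have t3 : (n : ℝ) ^ k * Real.ofDigits (fun t => (rep D a0 k Q t).1.2) ≤
        (n : ℝ) ^ k * z 1 + 1 := by
      have : (n : ℝ) ^ k * (Real.ofDigits (fun t => (rep D a0 k Q t).1.2) - z 1) ≤
        (n : ℝ) ^ k * r := mul_le_mul_of_nonneg_left s2.2 (by positivity)
      rw [mul_sub] at this
      linarith
    have t4 : (n : ℝ) ^ k * z 1 - 1 ≤
        (n : ℝ) ^ k * Real.ofDigits (fun t => (rep D a0 k Q t).1.2) := by
      have : (n : ℝ) ^ k * (-r) ≤
        (n : ℝ) ^ k * (Real.ofDigits (fun t => (rep D a0 k Q t).1.2) - z 1) :=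
        mul_le_mul_of_nonneg_left s2.1 (by positivity)
      rw [mul_sub, mul_neg] at this
      linarith
    rw [Finset.mem_product, Finset.mem_Icc, Finset.mem_Icc]
    refine ⟨⟨Int.ceil_le.mpr ?_, Int.le_floor.mpr ?_⟩, ⟨Int.ceil_le.mpr ?_, Int.le_floor.mpr ?_⟩⟩
    · show u ≤ ((a Q : ℤ) : ℝ)
      push_cast
      linarith
    · show ((a Q : ℤ) : ℝ) ≤ u + (2 * m + 1)
      push_cast
      linarith
    · show v ≤ ((b Q : ℤ) : ℝ)
      push_cast
      linarith
    · show ((b Q : ℤ) : ℝ) ≤ v + 3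
      push_cast
      linarith
  have hcard : S.card ≤ ((Finset.Icc ⌈u⌉ ⌊u + (2 * m + 1)⌋) ×ˢ (Finset.Icc ⌈v⌉ ⌊v + 3⌋)).card := by
    apply Finset.card_le_card_of_injOn (fun Q => ((a Q : ℤ), (b Q : ℤ))) hmem
    intro Q _ Q' _ h
    have h' : ((a Q : ℤ), (b Q : ℤ)) = ((a Q' : ℤ), (b Q' : ℤ)) := h
    rw [Prod.mk.injEq] at h'
    exact hinj Q Q' (by exact_mod_cast h'.1) (by exact_mod_cast h'.2)
  rw [Finset.card_product] at hcard
  have hcard' : (S.card : ℝ) ≤ ((Finset.Icc ⌈u⌉ ⌊u + (2 * m + 1)⌋).card : ℝ) *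
      ((Finset.Icc ⌈v⌉ ⌊v + 3⌋).card : ℝ) := by exact_mod_cast hcard
  refine hcard'.trans ?_
  have c1 := card_Icc_le u (2 * m + 1) (by positivity)
  have c2 := card_Icc_le v 3 (by norm_num)
  calc ((Finset.Icc ⌈u⌉ ⌊u + (2 * m + 1)⌋).card : ℝ) * ((Finset.Icc ⌈v⌉ ⌊v + 3⌋).card : ℝ)
      ≤ (2 * m + 1 + 1) * (3 + 1) := by gcongr
    _ = (2 * m + 2) * 4 := by ring

/-! ### The dimension -/

/-- McMullen's formula. -/
noncomputable def dd : ℝ :=
  Real.log ((D.image Prod.fst).card) / Real.log m +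
    Real.log ((D.card : ℝ) / (D.image Prod.fst).card) / Real.log n

theorem log_card (hm : 2 ≤ m) (hmn : m < n) (hD : D.Nonempty) (k : ℕ) :
    k * dd D * Real.log n ≤ Real.log (Fintype.card (QQ D k)) ∧
    Real.log (Fintype.card (QQ D k)) ≤ k * dd D * Real.log n + Real.log (D.image Prod.fst).card := by
  have hM : 0 < (D.image Prod.fst).card := Finset.card_pos.mpr (hD.image _)
  have hN : 0 < D.card := Finset.card_pos.mpr hD
  have hM' : (0 : ℝ) < (D.image Prod.fst).card := by exact_mod_cast hM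
  have hN' : (0 : ℝ) < D.card := by exact_mod_cast hN
  have hlm : 0 < Real.log m := Real.log_pos (by exact_mod_cast (by omega : 1 < m))
  have hln : 0 < Real.log n := Real.log_pos (by exact_mod_cast (by omega : 1 < n))
  have hlM : 0 ≤ Real.log (D.image Prod.fst).card := Real.log_nonneg (by exact_mod_cast hM)
  have hkl := le_L (m := m) (n := n) hm hmn k
  have h1 : Real.log (Fintype.card (QQ D k)) =
      k * (Real.log D.card - Real.log (D.image Prod.fst).card) +
        (L m n k) * Real.log (D.image Prod.fst).card := by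
    rw [card_QQ]
    push_cast
    rw [Real.log_mul (by positivity) (by positivity), Real.log_pow, Real.log_pow,
      Nat.cast_sub hkl]
    ring
  have h2 : k * dd D * Real.log n =
      k * (Real.log D.card - Real.log (D.image Prod.fst).card) +
        (k * Real.log n / Real.log m) * Real.log (D.image Prod.fst).card := by
    unfold dd
    rw [Real.log_div hN'.ne' hM'.ne']
    field_simp
    ring
  have hn0 : (0 : ℝ) < n := by exact_mod_cast (by omega : 0 < n)
  have hm0 : (0 : ℝ) < m := by exact_mod_cast (by omega : 0 < m)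
  have h3 : k * Real.log n ≤ (L m n k) * Real.log m := by
    rw [← Real.log_pow, ← Real.log_pow]
    apply Real.log_le_log (by positivity)
    exact_mod_cast L_lower (m := m) (n := n) hm k
  have h4 : (L m n k) * Real.log m ≤ k * Real.log n + Real.log m := by
    rw [← Real.log_pow, ← Real.log_pow, ← Real.log_mul (by positivity) (by positivity)]
    apply Real.log_le_log (by positivity)
    rw [mul_comm]
    exact_mod_cast (L_upper (m := m) (n := n) hm hmn k).le
  have h5 : k * Real.log n / Real.log m ≤ L m n k := by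
    rw [div_le_iff₀ hlm]
    exact h3
  have h6 : (L m n k : ℝ) ≤ k * Real.log n / Real.log m + 1 := by
    rw [div_add_one hlm.ne', le_div_iff₀ hlm]
    exact h4
  rw [h1, h2]
  constructor
  · gcongr
  · have := mul_le_mul_of_nonneg_right h6 hlM
    linarith

theorem L_le (hm : 2 ≤ m) (hmn : m < n) (k : ℕ) :
    (L m n k : ℝ) ≤ k * (Real.log n / Real.log m) + 1 := by
  have hlm : 0 < Real.log m := Real.log_pos (by exact_mod_cast (by omega : 1 < m))
  have hn0 : (0 : ℝ) < n := by exact_mod_cast (by omega : 0 < n)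
  have hm0 : (0 : ℝ) < m := by exact_mod_cast (by omega : 0 < m)
  have h4 : (L m n k) * Real.log m ≤ k * Real.log n + Real.log m := by
    rw [← Real.log_pow, ← Real.log_pow, ← Real.log_mul (by positivity) (by positivity)]
    apply Real.log_le_log (by positivity)
    rw [mul_comm]
    exact_mod_cast (L_upper (m := m) (n := n) hm hmn k).le
  rw [← mul_div_assoc, div_add_one hlm.ne', le_div_iff₀ hlm]
  exact h4

end

end Pool.Agent.X125.BM
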