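import Mathlib

/-! Shift-invariant mixtures of stationarised periodic product measures. -/

set_option autoImplicit false
open MeasureTheory Filter Topology Set
open scoped ENNReal

namespace Pool.Agent.X125.BM

section
variable {A : Type*} [MeasurableSpace A]

/-- The left shift. -/
def shift (ω : ℕ → A) : ℕ → A := fun i => ω (i + 1)

lemma measurable_shift : Measurable (shift : (ℕ → A) → (ℕ → A)) :=
  measurable_pi_lambda _ fun _ => measurable_pi_apply _

lemma map_shift (p : ℕ → Measure A) [∀ i, IsProbabilityMeasure (p i)] :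
    (Measure.infinitePi p).map shift = Measure.infinitePi (fun i => p (i + 1)) := by
  classical
  apply Measure.eq_infinitePi
  intro s t ht
  rw [Measure.map_apply measurable_shift (MeasurableSet.pi s.countable_toSet fun i _ => ht i)]
  have e : shift ⁻¹' (Set.pi s t) =
      Set.pi (s.map (addRightEmbedding 1) : Finset ℕ) (fun y => t (y - 1)) := by
    ext v
    simp only [Set.mem_preimage, Set.mem_pi, Finset.mem_coe, Finset.mem_map,
      addRightEmbedding_apply]
    constructor
    · rintro h _ ⟨y, hy, rfl⟩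
      rw [Nat.add_sub_cancel]
      exact h y hy
    · intro h y hy
      have := h (y + 1) ⟨y, hy, rfl⟩
      rwa [Nat.add_sub_cancel] at this
  rw [e, Measure.infinitePi_pi]
  · rw [Finset.prod_map]
    refine Finset.prod_congr rfl (fun y _ => ?_)
    have h0 : y + 1 - 1 = y := Nat.add_sub_cancel y 1
    change p (y + 1) (t (y + 1 - 1)) = _
    rw [h0]
  · intro y hy
    exact ht _

/-- The stationarised product measure. -/
noncomputable def stat (l : ℕ) (p : ℕ → Measure A) : Measure (ℕ → A) :=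
  (l : ℝ≥0∞)⁻¹ • ∑ s ∈ Finset.range l, Measure.infinitePi (fun i => p (i + s))

lemma stat_prob (l : ℕ) (hl : 0 < l) (p : ℕ → Measure A) [∀ i, IsProbabilityMeasure (p i)] :
    stat l p univ = 1 := by
  have hl' : (l : ℝ≥0∞) ≠ 0 := by exact_mod_cast hl.ne'
  simp only [stat, Measure.smul_apply, Measure.finsetSum_apply, measure_univ, Finset.sum_const,
    Finset.card_range, smul_eq_mul, nsmul_eq_mul, mul_one]
  exact ENNReal.inv_mul_cancel hl' (ENNReal.natCast_ne_top l)

lemma map_stat (l : ℕ) (hl : 0 < l) (p : ℕ → Measure A) [∀ i, IsProbabilityMeasure (p i)]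
    (hper : ∀ i, p (i + l) = p i) : (stat l p).map shift = stat l p := by
  set G : ℕ → Measure (ℕ → A) := fun s => Measure.infinitePi (fun i => p (i + s)) with hG
  have h1 : ∀ s, (G s).map shift = G (s + 1) := by
    intro s
    rw [hG]
    simp only
    rw [map_shift]
    congr 1
    funext i
    congr 1
    ring
  have h2 : G l = G 0 := by
    rw [hG]
    simp only
    congr 1
    funext i
    rw [hper, add_zero]
  obtain ⟨l', rfl⟩ : ∃ l', l = l' + 1 := ⟨l - 1, by omega⟩
  have h3 : ∑ s ∈ Finset.range (l' + 1), G (s + 1) = ∑ s ∈ Finset.range (l' + 1), G s := by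
    rw [Finset.sum_range_succ, h2, Finset.sum_range_succ' G l']
  have h4 : (∑ s ∈ Finset.range (l' + 1), G s).map shift =
      ∑ s ∈ Finset.range (l' + 1), G (s + 1) := by
    ext S hS
    rw [Measure.map_apply measurable_shift hS, Measure.finsetSum_apply, Measure.finsetSum_apply]
    refine Finset.sum_congr rfl fun s _ => ?_
    rw [← h1 s, Measure.map_apply measurable_shift hS]
  show ((((l' + 1 : ℕ) : ℝ≥0∞)⁻¹) • ∑ s ∈ Finset.range (l' + 1), G s).map shift =
    (((l' + 1 : ℕ) : ℝ≥0∞)⁻¹) • ∑ s ∈ Finset.range (l' + 1), G s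
  rw [Measure.map_smul, h4, h3]

lemma stat_ge (l : ℕ) (hl : 0 < l) (p : ℕ → Measure A) (S : Set (ℕ → A)) :
    (l : ℝ≥0∞)⁻¹ * Measure.infinitePi p S ≤ stat l p S := by
  simp only [stat, Measure.smul_apply, Measure.finsetSum_apply, smul_eq_mul]
  gcongr
  refine le_trans ?_ (Finset.single_le_sum (f := fun s => Measure.infinitePi (fun i => p (i + s)) S)
    (fun _ _ => zero_le) (Finset.mem_range.mpr hl))
  simp

/-- The weights `1 / ((k+1)(k+2))`. -/
noncomputable def wt (k : ℕ) : ℝ≥0∞ := ENNReal.ofReal (1 / ((k + 1) * (k + 2)))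

lemma wt_sum : ∑' k, wt k = 1 := by
  have h1 : ∀ n : ℕ, ∑ k ∈ Finset.range n, (1 / (((k : ℝ) + 1) * (k + 2))) = 1 - 1 / (n + 1) := by
    intro n
    induction n with
    | zero => simp
    | succ n ih =>
      rw [Finset.sum_range_succ, ih]
      push_cast
      field_simp
      ring
  have h2 : HasSum (fun k : ℕ => 1 / (((k : ℝ) + 1) * (k + 2))) 1 := by
    rw [hasSum_iff_tendsto_nat_of_nonneg (fun k => by positivity)]
    simp only [h1]
    have : Tendsto (fun n : ℕ => (1 : ℝ) - 1 / ((n : ℝ) + 1)) atTop (𝓝 (1 - 0)) :=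
      tendsto_const_nhds.sub tendsto_one_div_add_atTop_nhds_zero_nat
    simpa using this
  unfold wt
  rw [← ENNReal.ofReal_tsum_of_nonneg (fun k => by positivity) h2.summable, h2.tsum_eq]
  simp

/-- The mixture. -/
noncomputable def mix (l : ℕ → ℕ) (p : ℕ → ℕ → Measure A) : Measure (ℕ → A) :=
  Measure.sum fun k => wt k • stat (l k) (p k)

lemma mix_prob (l : ℕ → ℕ) (hl : ∀ k, 0 < l k) (p : ℕ → ℕ → Measure A)
    [∀ k i, IsProbabilityMeasure (p k i)] : IsProbabilityMeasure (mix l p) := by
  refine ⟨?_⟩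
  unfold mix
  rw [Measure.sum_apply _ MeasurableSet.univ]
  simp only [Measure.smul_apply, smul_eq_mul]
  have : ∀ k, stat (l k) (p k) univ = 1 := fun k => stat_prob (l k) (hl k) (p k)
  simp only [this, mul_one, wt_sum]

lemma mix_map (l : ℕ → ℕ) (hl : ∀ k, 0 < l k) (p : ℕ → ℕ → Measure A)
    [∀ k i, IsProbabilityMeasure (p k i)] (hper : ∀ k i, p k (i + l k) = p k i) :
    (mix l p).map shift = mix l p := by
  ext S hS
  rw [Measure.map_apply measurable_shift hS]
  unfold mix
  rw [Measure.sum_apply _ (measurable_shift hS), Measure.sum_apply _ hS]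
  congr 1
  funext k
  simp only [Measure.smul_apply, smul_eq_mul]
  rw [← Measure.map_apply measurable_shift hS, map_stat (l k) (hl k) (p k) (hper k)]

lemma mix_ge (l : ℕ → ℕ) (hl : ∀ k, 0 < l k) (p : ℕ → ℕ → Measure A) (k : ℕ)
    (S : Set (ℕ → A)) (hS : MeasurableSet S) :
    wt k * ((l k : ℝ≥0∞)⁻¹ * Measure.infinitePi (p k) S) ≤ mix l p S := by
  unfold mix
  rw [Measure.sum_apply _ hS]
  refine le_trans ?_ (ENNReal.le_tsum k)
  simp only [Measure.smul_apply, smul_eq_mul]
  gcongr
  exact stat_ge (l k) (hl k) (p k) S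

/-- The uniform average of Dirac masses. -/
noncomputable def unif {ι : Type*} [Fintype ι] (f : ι → A) : Measure A :=
  (Fintype.card ι : ℝ≥0∞)⁻¹ • ∑ i, Measure.dirac (f i)

lemma unif_prob {ι : Type*} [Fintype ι] [Nonempty ι] (f : ι → A) :
    IsProbabilityMeasure (unif f) := by
  refine ⟨?_⟩
  have h : (Fintype.card ι : ℝ≥0∞) ≠ 0 := by exact_mod_cast Fintype.card_ne_zero
  simp only [unif, Measure.smul_apply, Measure.finsetSum_apply, measure_univ, Finset.sum_const,
    Finset.card_univ, smul_eq_mul, nsmul_eq_mul, mul_one]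
  exact ENNReal.inv_mul_cancel h (ENNReal.natCast_ne_top _)

lemma unif_ge {ι : Type*} [Fintype ι] (f : ι → A) (S : Set A) (i : ι)
    (hi : f i ∈ S) : (Fintype.card ι : ℝ≥0∞)⁻¹ ≤ unif f S := by
  simp only [unif, Measure.smul_apply, Measure.finsetSum_apply, smul_eq_mul]
  have h1 : (1 : ℝ≥0∞) ≤ Measure.dirac (f i) S := by
    refine le_trans ?_ Measure.le_dirac_apply
    rw [indicator_of_mem hi]
    simp
  calc (Fintype.card ι : ℝ≥0∞)⁻¹ = (Fintype.card ι : ℝ≥0∞)⁻¹ * 1 := (mul_one _).symm
    _ ≤ _ := by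
      gcongr
      exact le_trans h1 (Finset.single_le_sum (f := fun i => Measure.dirac (f i) S)
        (fun _ _ => zero_le) (Finset.mem_univ i))

end

end Pool.Agent.X125.BM
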